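import Pool.Agent.K9h25.M.Cur
import Pool.Agent.R882.CTow
import Pool.Agent.R882.UC

/-!
# Viehweg's inequality for the images of towers of mildly singular hypersurfaces

Let `V` be a component, of dimension `n ≥ 1`, of a hypersurface `f = 0` in the torus
`(ℂ^*) ^ (n + 1)` which is mild along `V`: for all integral vectors `v` the logarithmic Hessian of
the initial part `ini v f` (the sum of the terms on which the linear function `v` is minimal) has
rank at least two, and at least three if `v = 0`, at all the points of the initial degeneration of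
`V` in the direction `v` at which the logarithmic gradient of `ini v f` vanishes. The Newton polytope
is arbitrary. So `V` may be singular in the torus (for example double points of rank at least three,
along subvarieties of any dimension), and on all strata at infinity (rank at least two); the
nondegenerate hypersurfaces (Khovanskii) are those without such points.

A tower: let `t l = x ^ (w l)`, `y = x ^ v` be monomials such that `ℂ(V) = ℂ(t)(y)` has finite degree
`b` over `ℂ(t)`, the function field of the image `V'` of `V`. For the number `s` it is required that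
for all divisors `c < b` of `b` there is a column in the Fine interior of the Newton polytope: an `M`
with `s ≤ c (M + 1)` such that the `u + j v` and the `u + j v + M w l` are in the Fine interior for
all `j < c`; and `V'` is uniruled, or it is again birational to a component of a hypersurface in a
torus, mild along it, which is the first variety of such a tower for the number `s / b`; and so on,
down to a uniruled variety. For example, the hypersurface `g (x, y ^ k) = 0` is mapped to the
hypersurface `g (x, z) = 0` by `z = y ^ k`, and this one to the torus `(ℂ^*) ^ n` with the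
coordinates `x = (x 1, ..., x n)`. For towers with one step over `(ℂ^*) ^ n`, hypersurfaces of
multidegree `(e 1, ..., e n, b)` in `(ℙ ^ 1) ^ (n + 1)`, the condition is `e l ≥ s + 1`, `b ≥ 2`.

Let `V ⇢ W` be any dominant rational map of degree `[ℂ(V) : ℂ(W)] = r`; it need not be a
quotient by a group, and its ramification is arbitrary. It is not assumed to be related to the
fibrations of `W` below. The theorem is about all the fibrations `W → Y` (of smooth models; all
rational maps `W ⇢ Y` onto varieties are allowed) with generic fibre `F` and `κ(Y) ≥ 0`.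

* If `V` is the first variety of a tower for `r`, and if `K_F` is pseudo-effective, then
  `p_g(W) > 0`, and so `κ(W) ≥ 0`.
* If `V` is the first variety of a tower for `2 r` then `κ(W) ≥ κ(F) + dim Y`. As `κ(Y)` and the
  variation `Var (W → Y)` are at most `dim Y`, this gives Viehweg's inequality
  `κ(W) ≥ κ(F) + max (κ(Y), Var)` for all the fibrations of `W`, without any condition on `F`
  (`F` may be of general type). Also Iitaka's inequality `κ(W) ≥ κ(F) + κ(Y)` is stated.

Proof. Let `W` be not of general type. The traces on `W` of the forms `A(t) x ^ u Res`, which are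
regular for mild hypersurfaces (`Pool/Agent/K9h25/M/Img.lean`), show that `V ⇢ W` factors through `V'`
(`Pool.Agent.R882.Over.factors_step`); by induction it factors through the uniruled variety at the end
of the tower, and `W` is uniruled. Then `κ(Y) = -∞` or `K_F` is not pseudo-effective
(`Pool/Agent/R882/UA.lean`, `UB.lean`). For towers with one step the dichotomy (`W` is uniruled or of
general type) is `MP_23b606_ag.MildImages`, whose proof is used here for each step. For towers of
smooth complete intersections in products of projective lines see the starting file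
`MP_a4b25d_ag/IitakaLinesTowers.lean`.
-/

set_option autoImplicit false
set_option linter.overlappingInstances false
set_option maxHeartbeats 4000000
set_option synthInstance.maxHeartbeats 400000

open FF Module Pool.Agent Pool.Agent.W602.GT Pool.Agent.R885
open Pool.Agent.W619.PQ (IsUniruled)

namespace Pool.Agent.Results.MP_5c318e_ag.ImagesOfMildTowers

/-- The logarithmic Hessian matrix of `f` at the point `c` of the torus: the matrix of the second
derivatives with respect to the logarithms of the coordinates. -/
noncomputable def logHessian {r : ℕ} (c : Fin r → ℂ) (f : (Fin r → ℤ) →₀ ℂ) :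
    Matrix (Fin r) (Fin r) ℂ :=
  Matrix.of fun i j => f.sum fun m a => a * ((m i * m j : ℤ) : ℂ) * R885.mono c m

/-- The hypersurface `f = 0` is mild along its component with the generic point `x`: for all
integral vectors `v`, at the points `c` of the initial degeneration of this component in the
direction `v` at which the logarithmic gradient of `ini v f` vanishes, the logarithmic Hessian of
`ini v f` has rank at least two, and at least three if `v = 0`. -/
def IsMild {K : Type} [Field K] [Algebra ℂ K] {r : ℕ} (f : (Fin r → ℤ) →₀ ℂ) (x : Fin r → K) :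
    Prop :=
  ∀ (v : Fin r → ℤ) (c : Fin r → ℂ), (∀ i, c i ≠ 0) →
    (∀ g : (Fin r → ℤ) →₀ ℂ, ev x g = 0 → ev c (ini v g) = 0) → gr c (ini v f) = 0 →
      2 ≤ (logHessian c (ini v f)).rank ∧ (v = 0 → 3 ≤ (logHessian c (ini v f)).rank)

/-- `x` is the generic point of a component, with function field `K`, of the hypersurface `f = 0` of
the torus `(ℂ^*) ^ (n + 1)`. -/
structure IsGenericPoint {K : Type} [Field K] [Algebra ℂ K] {n : ℕ}
    (f : (Fin (n + 1) → ℤ) →₀ ℂ) (x : Fin (n + 1) → K) : Prop where
  x_ne : ∀ i, x i ≠ 0
  zero : ev x f = 0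
  gen : IntermediateField.adjoin ℂ (Set.range x) = ⊤
  dim : Algebra.trdeg ℂ K = (n : ℕ)

/-- The integral vector `u` is in the Fine interior of the Newton polytope of `f`. -/
def InFine {r : ℕ} (f : (Fin r → ℤ) →₀ ℂ) (u : Fin r → ℤ) : Prop :=
  ∀ v : Fin r → ℤ, v ≠ 0 → 1 + mn v f ≤ u ⬝ᵥ v

/-- For all divisors `c < b` of `b` there is a column of length `c` and of width `M`,
`s ≤ c (M + 1)`, in the Fine interior, in the direction `v`. -/
def HasColumns {m N : ℕ} (f : (Fin m → ℤ) →₀ ℂ) (v : Fin m → ℤ)
    (w : Fin N → Fin m → ℤ) (b s : ℕ) : Prop :=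
  ∀ c : ℕ, c ∣ b → c < b → ∃ (M : ℕ) (u : Fin m → ℤ), s ≤ c * (M + 1) ∧
    ∀ j < c, InFine f (u + (j : ℤ) • v) ∧ ∀ l, InFine f (u + (j : ℤ) • v + (M : ℤ) • w l)

/-- `K` is the function field of the first variety of a tower of varieties of dimension `n` for the
number `s`: either this variety is uniruled, or `K` is the function field of a component, with
generic point `x`, of a hypersurface `f = 0` of a torus, mild along it, with columns for `s`, and the
subfield `ℂ(t)`, generated by the monomials `t l = x ^ (w l)`, with `K = ℂ(t)(x ^ v)` of degree `b`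
over `ℂ(t)`, is the function field of the first variety of a tower for the number `s / b`. -/
inductive Tower (n : ℕ) : ∀ (K : Type) [Field K] [Algebra ℂ K], ℕ → Prop
  | base {K : Type} [Field K] [Algebra ℂ K] {s : ℕ} (h : IsUniruled ℂ K n) : Tower n K s
  | cover {K : Type} [Field K] [Algebra ℂ K] {s N : ℕ} (f : (Fin (n + 1) → ℤ) →₀ ℂ)
      (x : Fin (n + 1) → K) (point : IsGenericPoint f x) (mild : IsMild f x)
      (v : Fin (n + 1) → ℤ) (w : Fin N → Fin (n + 1) → ℤ) (t : Fin N → K)
      (mono : ∀ l, t l = R885.mono x (w l))
      (fin : FiniteDimensional (IntermediateField.adjoin ℂ (Set.range t)) K)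
      (prim : IntermediateField.adjoin (IntermediateField.adjoin ℂ (Set.range t))
        {R885.mono x v} = ⊤)
      (col : HasColumns f v w
        (Module.finrank (IntermediateField.adjoin ℂ (Set.range t)) K) s)
      (below : Tower n (IntermediateField.adjoin ℂ (Set.range t))
        (s / Module.finrank (IntermediateField.adjoin ℂ (Set.range t)) K)) :
      Tower n K s

/-- The geometric genus of the variety with the function field `L` is zero. -/
def GenusZero (L : Type) [Field L] [Algebra ℂ L] (n : ℕ) : Prop :=
  ∀ ω : (Fin n → Derivation ℂ L L) → L, IsPluri 1 ω →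
    (∀ P : Place ℂ L, Divisorial n P → RegAt P ω) → ∀ D, ω D = 0

/-- The Kodaira dimension of the smooth projective varieties of dimension `n` over `k` with the
function field `K` is at least `h`. -/
def KappaGe (k K : Type) [Field k] [Field K] [Algebra k K] (n h : ℕ) : Prop :=
  KodGe k K n (fun _ => False) h

/-- The canonical divisor of the smooth projective varieties of dimension `n` over `k` with the
function field `K` is pseudo-effective. -/
def IsPseudoEffective (k K : Type) [Field k] [Field K] [Algebra k K] (n : ℕ) : Prop :=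
  Psef k K n (fun _ => False)

/-- the basic step for a mild hypersurface -/
lemma mild_positive {n N : ℕ} {f : (Fin (n + 1) → ℤ) →₀ ℂ} {K : Type} [Field K]
    [Algebra ℂ K] {x : Fin (n + 1) → K} (hx : IsGenericPoint f x) (hf : IsMild f x)
    {v : Fin (n + 1) → ℤ} {w : Fin N → Fin (n + 1) → ℤ} {t : Fin N → K}
    (ht : ∀ l, t l = R885.mono x (w l))
    [FiniteDimensional (IntermediateField.adjoin ℂ (Set.range t)) K]
    (hy : IntermediateField.adjoin (IntermediateField.adjoin ℂ (Set.range t))
      {R885.mono x v} = ⊤) :
    Pool.Agent.R882.Over.IsBase n (Fin.cons 1 t : Fin (N + 1) → K) ∧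
    IntermediateField.adjoin ℂ (Set.range (Fin.cons 1 t : Fin (N + 1) → K)) =
      IntermediateField.adjoin ℂ (Set.range t) ∧
    ∀ r : ℕ, HasColumns f v w
      (Module.finrank (IntermediateField.adjoin ℂ (Set.range t)) K) r →
      Pool.Agent.R882.Over.Positive n (Fin.cons 1 t : Fin (N + 1) → K) r := by
  classical
  have hess : Algebra.EssFiniteType ℂ K := by
    rw [← IntermediateField.fg_top_iff, ← hx.gen]
    exact ⟨Finset.univ.image x, by rw [Finset.coe_image, Finset.coe_univ, Set.image_univ]⟩
  have hK := hx.dim
  have hfine : ∀ u, InFine f u → Pool.Agent.R882.LT.InFine (fun _ : Fin 1 => f) u := by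
    intro u hu v' hv'
    rw [Fin.sum_univ_one]
    exact hu v' hv'
  have e : Fin 1 ⊕ Fin n ≃ Fin (n + 1) := Fintype.equivOfCardEq (by
    rw [Fintype.card_sum, Fintype.card_fin, Fintype.card_fin, Fintype.card_fin, add_comm])
  obtain ⟨Ω, hΩ, hne⟩ := Pool.Agent.K9h25.M.exists_twisted_colA (w := w) hK rfl hx.x_ne hx.gen e
    hx.zero hf
  have htE : t = fun l => R885.mono x (w l) := funext ht
  rw [← htE] at hΩ
  have hrange : Set.range (Fin.cons 1 t : Fin (N + 1) → K) = insert 1 (Set.range t) := by
    rw [Fin.range_cons]
  have hadj : IntermediateField.adjoin ℂ (Set.range (Fin.cons 1 t : Fin (N + 1) → K)) =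
      IntermediateField.adjoin ℂ (Set.range t) := by
    rw [hrange]
    apply le_antisymm
    · rw [IntermediateField.adjoin_le_iff]
      rintro g (rfl | hg)
      · exact one_mem _
      · exact IntermediateField.subset_adjoin _ _ hg
    · exact IntermediateField.adjoin.mono _ _ _ (Set.subset_insert _ _)
  have hbase : Pool.Agent.R882.Over.IsBase n (Fin.cons 1 t : Fin (N + 1) → K) := by
    refine ⟨hess, hK, ⟨0, Fin.cons_zero _ _⟩, ?_⟩
    rw [hadj]
    infer_instance
  refine ⟨hbase, hadj, ?_⟩
  intro r hcol F hF
  rw [hadj] at hF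
  -- the codegree
  let i1 : Algebra (IntermediateField.adjoin ℂ (Set.range t)) F :=
    (IntermediateField.inclusion hF.le).toRingHom.toAlgebra
  have i2 : IsScalarTower (IntermediateField.adjoin ℂ (Set.range t)) F K :=
    IsScalarTower.of_algebraMap_eq fun g => rfl
  have i3 : FiniteDimensional F K :=
    Module.Finite.of_restrictScalars_finite (IntermediateField.adjoin ℂ (Set.range t)) F K
  have i4 : Module.Free (IntermediateField.adjoin ℂ (Set.range t)) F :=
    Module.Free.of_divisionRing _ _
  have i5 : Module.Free F K := Module.Free.of_divisionRing _ _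
  have hmul := Module.finrank_mul_finrank (IntermediateField.adjoin ℂ (Set.range t)) F K
  have hpos2 : 0 < Module.finrank F K := Module.finrank_pos
  have hpos3 : 0 < Module.finrank (IntermediateField.adjoin ℂ (Set.range t)) K :=
    Module.finrank_pos
  have hdvd : Module.finrank F K ∣
      Module.finrank (IntermediateField.adjoin ℂ (Set.range t)) K := Dvd.intro_left _ hmul
  have hlt : Module.finrank F K <
      Module.finrank (IntermediateField.adjoin ℂ (Set.range t)) K := by
    refine lt_of_le_of_ne (Nat.le_of_dvd hpos3 hdvd) fun h => ?_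
    exact hF.ne (IntermediateField.eq_of_le_of_finrank_eq' hF.le h.symm)
  obtain ⟨M, u, hr, hcol'⟩ := hcol _ hdvd hlt
  refine ⟨M, hr, ?_⟩
  have hyF : IntermediateField.adjoin F {R885.mono x v} = ⊤ := by
    rw [eq_top_iff]
    intro g _
    have h1 : g ∈ IntermediateField.adjoin (IntermediateField.adjoin ℂ (Set.range t))
        {R885.mono x v} := by
      rw [hy]
      trivial
    have hle : (IntermediateField.adjoin (IntermediateField.adjoin ℂ (Set.range t))
        {R885.mono x v}).toSubfield ≤
        (IntermediateField.adjoin F {R885.mono x v}).toSubfield := by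
      change Subfield.closure _ ≤ _
      rw [Subfield.closure_le]
      rintro z (⟨c, rfl⟩ | hz)
      · exact (IntermediateField.adjoin F {R885.mono x v}).algebraMap_mem
          (⟨c, hF.le c.2⟩ : F)
      · rw [Set.mem_singleton_iff.mp hz]
        exact IntermediateField.mem_adjoin_simple_self _ _
    exact hle h1
  have hΩ1 : IsPluri 1 (fun D => R885.mono x u * Ω D) := by
    obtain ⟨h1, h2⟩ := hcol' 0 hpos2
    have h3 := (hΩ M (u + ((0 : ℕ) : ℤ) • v) (hfine _ h1) fun l => hfine _ (h2 l)).1
    rw [Nat.cast_zero, zero_smul, add_zero] at h3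
    exact h3
  obtain ⟨j, hj, D, D', hD, htr⟩ := Pool.Agent.R882.LT.col_detect (F := F) (y := R885.mono x v)
    (ω := fun D => R885.mono x u * Ω D) hK hyF
    (fun Z hZ D0 hD0 => mul_ne_zero (R885.mono_ne hx.x_ne _) (hne Z hZ D0 hD0))
  have hform : (fun D : Fin n → Derivation ℂ K K => R885.mono x v ^ j *
      (R885.mono x u * Ω D)) = fun D => R885.mono x (u + (j : ℤ) • v) * Ω D := by
    funext D
    rw [R885.mono_add hx.x_ne, R885.mono_zsmul, zpow_natCast]
    ring
  obtain ⟨h1, h2⟩ := hcol' j hj
  have h3 := hΩ M _ (hfine _ h1) fun l => hfine _ (h2 l)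
  refine ⟨fun D => R885.mono x v ^ j * (R885.mono x u * Ω D), ?_, fun g P hP => ?_,
    D, D', hD, htr⟩
  · rw [hform]
    exact h3.1
  · have h4 := h3.reg g P hP
    have h5 : ∀ D : Fin n → Derivation ℂ K K, R885.mono x v ^ j * (R885.mono x u * Ω D) =
        R885.mono x (u + (j : ℤ) • v) * Ω D := fun D => congrFun hform D
    simp only [h5]
    exact h4

lemma descends_uniruled {n : ℕ} {K : Type} [Field K] [Algebra ℂ K] {L : Type} [Field L]
    [Algebra ℂ L] [Algebra L K] [IsScalarTower ℂ L K] (h : IsUniruled ℂ K n) :
    IsUniruled ℂ L n := by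
  obtain ⟨M, i1, i2, h1, h2, ⟨φ⟩⟩ := h
  exact ⟨M, i1, i2, h1, h2, ⟨φ.comp (IsScalarTower.toAlgHom ℂ L K)⟩⟩

lemma kod_top_of_general {K : Type} [Field K] [Algebra ℂ K] {w : ℕ} (h : GeneralType ℂ K w) :
    KappaGe ℂ K w w := by
  obtain ⟨-, N, hN, ω, h1, h2, D, hD, hind⟩ := h
  exact ⟨N, hN, ω, fun j => ⟨h1 j, fun P hP D' hD' => h2 P hP j D' fun i =>
    Pool.Agent.TH466.QG.derReg_of_log (hD' i), fun P hP _ => h2 P hP j⟩, D, hD, hind⟩

/-- images of towers -/
lemma tower_aux {n : ℕ} (hn : 1 ≤ n) {K : Type} [i1 : Field K] [i2 : Algebra ℂ K] {s : ℕ}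
    (h : Tower n K s) : Algebra.trdeg ℂ K = (n : ℕ) →
    ∀ (L : Type) [Field L] [Algebra ℂ L] [Algebra L K] [IsScalarTower ℂ L K]
      [FiniteDimensional L K],
      (s = Module.finrank L K → GenusZero L n → IsUniruled ℂ L n) ∧
      (s = 2 * Module.finrank L K → ¬ GeneralType ℂ L n → IsUniruled ℂ L n) := by
  induction h with
  | @base K _ _ s h =>
    intro _ L _ _ _ _ _
    exact ⟨fun _ _ => descends_uniruled h, fun _ _ => descends_uniruled h⟩
  | @cover K _ _ s N f x point mild v w t mono fin prim col below ih =>
    intro hK L _ _ _ _ _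
    obtain ⟨hbase, hadj, hpos⟩ := mild_positive point mild mono prim
    obtain ⟨h1, h2⟩ := Pool.Agent.R882.Over.factors_step hn hbase L
    have hfac : Pool.Agent.R882.Over.FactorsThrough L (Fin.cons 1 t : Fin (N + 1) → K) →
        ∀ g : L, algebraMap L K g ∈ IntermediateField.adjoin ℂ (Set.range t) := by
      unfold Pool.Agent.R882.Over.FactorsThrough
      rw [hadj]
      exact id
    have hK' : Algebra.trdeg ℂ (IntermediateField.adjoin ℂ (Set.range t)) = (n : ℕ) :=
      Pool.Agent.Y184.NT.trdeg_below (K := K) hK
    have hb : 0 < Module.finrank (IntermediateField.adjoin ℂ (Set.range t)) K :=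
      Module.finrank_pos
    refine ⟨fun hs hg => ?_, fun hs hg => ?_⟩
    · have h3 := hfac (h1 (hs ▸ hpos s col) hg)
      obtain ⟨j1, j2, j3, hdeg⟩ := Pool.Agent.R882.LT.factor_alg (N := 0) L h3
      refine (ih hK' L).1 ?_ hg
      rw [hs, hdeg, Nat.mul_div_cancel _ hb]
    · have h3 := hfac (h2 (hs ▸ hpos s col) hg)
      obtain ⟨j1, j2, j3, hdeg⟩ := Pool.Agent.R882.LT.factor_alg (N := 0) L h3
      refine (ih hK' L).2 ?_ hg
      rw [hs, hdeg, ← mul_assoc, Nat.mul_div_cancel _ hb]

/-- **Viehweg's inequality for the images of towers of mildly singular hypersurfaces.** Let `V` be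
the first variety, with function field `K` and of dimension `n ≥ 1`, of a tower. Let `V ⇢ W` be a
dominant rational map of finite degree `r = [K : L]`, `L` the function field of `W`. Let `W ⇢ Y` be a
dominant rational map, given by the subfield `E` of `L`, with `κ(Y) ≥ 0`, `d = dim Y`, and `F` its
generic fibre, a variety of dimension `f'` over `E` with the function field `L`.
If the tower is one for `r` and `K_F` is pseudo-effective then `p_g(W) > 0`, so `κ(W) ≥ 0`. If it is
a tower for `2 r` then `κ(W) ≥ κ(F) + dim Y`, and also `κ(W) ≥ κ(F) + κ(Y)`. -/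
theorem result {n : ℕ} (hn : 1 ≤ n) {K : Type} [Field K] [Algebra ℂ K]
    [Algebra.EssFiniteType ℂ K] (hK : Algebra.trdeg ℂ K = (n : ℕ))
    (L : Type) [Field L] [Algebra ℂ L] [Algebra L K] [IsScalarTower ℂ L K]
    [FiniteDimensional L K] (E : IntermediateField ℂ L) [Algebra.EssFiniteType ℂ E] {d f' : ℕ}
    (hd : Algebra.trdeg ℂ E = d) (hf' : Algebra.trdeg E L = f') (hY : KappaGe ℂ E d 0) :
    (Tower n K (Module.finrank L K) → IsPseudoEffective E L f' →
      ¬ GenusZero L n ∧ KappaGe ℂ L n 0) ∧
    (Tower n K (2 * Module.finrank L K) →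
      (∀ q : ℕ, KappaGe E L f' q → KappaGe ℂ L n (q + d)) ∧
      ∀ p q : ℕ, KappaGe ℂ E d p → KappaGe E L f' q → KappaGe ℂ L n (p + q)) := by
  have hess : Algebra.EssFiniteType ℂ L := Pool.Agent.TH466.QG.ess_below (K := K)
  have hL : Algebra.trdeg ℂ L = (n : ℕ) := Pool.Agent.Y184.NT.trdeg_below (K := K) hK
  have hdf : d + f' = n := by
    have h3 := trdeg_add_eq ℂ E (A := L)
    rw [hd, hf', hL] at h3
    exact_mod_cast h3
  have hkey : IsPseudoEffective E L f' → ¬ IsUniruled ℂ L n := fun h4 h5 =>
    Pool.Agent.R882.UA.fib_not hL h5 E hd hf' hY h4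
  refine ⟨fun h h4 => ?_, fun h => ?_⟩
  · have h1 : ¬ GenusZero L n := fun hg => hkey h4 ((tower_aux hn h hK L).1 rfl hg)
    refine ⟨h1, ?_⟩
    by_contra hk
    apply h1
    intro ω hω hreg D
    by_contra hne
    refine hk ⟨1, one_pos, fun _ => ω, fun _ => ⟨hω, fun P hP D' hD' => hreg P hP D' fun i =>
      Pool.Agent.TH466.QG.derReg_of_log (hD' i), fun P hP _ => hreg P hP⟩, D, hne,
      algebraicIndependent_empty_type⟩
  · have h1 : IsPseudoEffective E L f' → KappaGe ℂ L n n := fun h4 =>
      kod_top_of_general (not_not.1 fun hg => hkey h4 ((tower_aux hn h hK L).2 rfl hg))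
    have h2 : ∀ q : ℕ, KappaGe E L f' q → KappaGe ℂ L n (q + d) := by
      intro q hq
      have h4 := h1 (psef_of_kodGe (Pool.Agent.R882.UA.kod_mono hq (Nat.zero_le _)))
      have hq' : q ≤ f' := Pool.Agent.R882.UA.kod_le_dim hf' hq
      exact Pool.Agent.R882.UA.kod_mono h4 (by omega)
    refine ⟨h2, fun p q hp hq => ?_⟩
    have hp' : p ≤ d := Pool.Agent.R882.UA.kod_le_dim hd hp
    exact Pool.Agent.R882.UA.kod_mono (h2 q hq) (by omega)

end Pool.Agent.Results.MP_5c318e_ag.ImagesOfMildTowers
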