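import Pool.Agent.K9h25.M.Cur
import Pool.Agent.R882.UC

/-!
# Viehweg's inequality for the images of mildly singular hypersurfaces fibred by curves

Let `V` be a component of the hypersurface `f = 0` in the torus with the coordinates
`t 1, ..., t n, x, y`. The hypersurface is supposed to be mild along `V`: for all integral vectors
`v` the logarithmic Hessian of the initial part `ini v f` (the sum of the terms on which the linear
function `v` is minimal) has rank at least two, and at least three if `v = 0`, at all the points of the
initial degeneration of `V` in the direction `v` at which the logarithmic gradient of `ini v f`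
vanishes. So `V` may be singular in the torus (double points of rank at least three, along
subvarieties of any dimension) and on all strata at infinity (rank at least two); the nondegenerate
hypersurfaces in the sense of Khovanskii are those without such points.

Suppose that `x` and `y` appear in `f` only with exponents `(i, j)` in the trapezoid `T` given by
`0 ≤ j ≤ b`, `0 ≤ i ≤ a + s (b - j)`; the Newton polytope of `f` is arbitrary otherwise. Suppose that
`t 1, ..., t n, x` are algebraically independent on `V`, and that the generic fibres of the map
`V ⇢ V' = (ℙ ^ 1) ^ n` given by `t` are irreducible; they are curves of arbitrary genus. Suppose that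
for all lattice points `(i, j)` in the interior of `T` there is a vector `u i j` over `(i, j)` such
that `u i j` and the `u i j + M e l`, where `e 1, ..., e n` are the unit vectors of the coordinates
`t`, are in the Fine interior of the Newton polytope of `f`. For example, `V` may be a
hypersurface of multidegree `(e 1, ..., e n, a, b)` in `(ℙ ^ 1) ^ (n + 2)` with `e l ≥ M + 2`.

Let `V ⇢ W` be any dominant rational map of finite degree (it is not assumed to be related to the
fibration), and let `m` be the degree over `W` of the image `W'` of `V` in `W × V'`.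

The theorem is about all fibrations `W → Y` (of smooth models; all rational maps `W ⇢ Y` onto
varieties are allowed) with generic fibre `F` and `κ(Y) ≥ 0`.

* If `2 m ≤ M + 1` and `K_F` is pseudo-effective then `κ(W) ≥ n = dim W - 1`.
* So if `2 m ≤ M + 1` then `κ(W) ≥ κ(F) + dim Y`, or `F` is of general type.

As `κ(Y)` and the variation `Var (W → Y)` are at most `dim Y`, the last part gives Viehweg's inequality
`κ(W) ≥ κ(F) + max (κ(Y), Var)` for all fibrations `W → Y` with `κ(Y) ≥ 0` whose fibres are not of
general type; if `F` is of general type then it is the theorem of Kollár, which is not formalised.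

Proof. `MP_5c318e_ag.CurveFibrationImages` and `MP_97d78d_ag.CurveFibrations` of the starting
repository are the case of nondegenerate `f`. Their proof, which is followed here
(`Pool/Agent/K9h25/M/Cur.lean`), uses the traces on `W` of the forms `A(t) x ^ (u i j) Res`. These
forms are regular for mild hypersurfaces: at a prime divisor at whose general point the initial part
of `f` is singular, with a Hessian of rank `s + 1`, the order of `Res` is at least
`s - 2 - min ⟨supp f, v⟩` (`Pool/Agent/K9h25/M/Img.lean`). It follows that `W` is uniruled or
`κ(W) ≥ n`. If `W` is uniruled then `κ(Y) = -∞` or `K_F` is not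
pseudo-effective (`Pool/Agent/R882/UA.lean`, `UB.lean`).
-/

set_option autoImplicit false
set_option linter.overlappingInstances false
set_option maxHeartbeats 4000000
set_option synthInstance.maxHeartbeats 400000

open FF Module Pool.Agent Pool.Agent.W602.GT Pool.Agent.R885

namespace Pool.Agent.Results.MP_5c318e_ag.MildCurveFibrations

/-- The logarithmic Hessian matrix of `f` at the point `c` of the torus: the matrix of the second
derivatives with respect to the logarithms of the coordinates. -/
noncomputable def logHessian {r : ℕ} (c : Fin r → ℂ) (f : (Fin r → ℤ) →₀ ℂ) :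
    Matrix (Fin r) (Fin r) ℂ :=
  Matrix.of fun i j => f.sum fun m a => a * ((m i * m j : ℤ) : ℂ) * R885.mono c m

/-- The hypersurface `f = 0` is mild along its component with the generic point `z`: for all
integral vectors `v`, at the points `c` of the initial degeneration of this component in the
direction `v` at which the logarithmic gradient of `ini v f` vanishes, the logarithmic Hessian of
`ini v f` has rank at least two, and at least three if `v = 0`. -/
def IsMild {K : Type} [Field K] [Algebra ℂ K] {r : ℕ} (f : (Fin r → ℤ) →₀ ℂ) (z : Fin r → K) :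
    Prop :=
  ∀ (v : Fin r → ℤ) (c : Fin r → ℂ), (∀ i, c i ≠ 0) →
    (∀ g : (Fin r → ℤ) →₀ ℂ, ev z g = 0 → ev c (ini v g) = 0) → gr c (ini v f) = 0 →
      2 ≤ (logHessian c (ini v f)).rank ∧ (v = 0 → 3 ≤ (logHessian c (ini v f)).rank)

/-- The integral vector `u` is in the Fine interior of the Newton polytope of `f`. -/
def InFine {r : ℕ} (f : (Fin r → ℤ) →₀ ℂ) (u : Fin r → ℤ) : Prop :=
  ∀ v : Fin r → ℤ, v ≠ 0 → 1 + mn v f ≤ u ⬝ᵥ v

/-- The exponents `(i, j)` of the last two variables in `f` are in the trapezoid `0 ≤ j ≤ b`,
`0 ≤ i ≤ a + s (b - j)`. -/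
def InTrapezoid {n : ℕ} (f : (Fin (n + 2) → ℤ) →₀ ℂ) (a s b : ℕ) : Prop :=
  ∀ m ∈ f.support, 0 ≤ m (Fin.last n).castSucc ∧
    m (Fin.last n).castSucc ≤ a + s * (b - m (Fin.last (n + 1))) ∧
    0 ≤ m (Fin.last (n + 1)) ∧ m (Fin.last (n + 1)) ≤ b

/-- The lattice point `(i, j)` is in the interior of the trapezoid. -/
def Interior (a s b i j : ℕ) : Prop := 1 ≤ i ∧ 1 ≤ j ∧ j + 1 ≤ b ∧ i + 1 ≤ a + s * (b - j)

/-- The Kodaira dimension of the smooth projective varieties of dimension `n` over `k` with the
function field `K` is at least `h`. -/
def KappaGe (k K : Type) [Field k] [Field K] [Algebra k K] (n h : ℕ) : Prop :=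
  KodGe k K n (fun _ => False) h

/-- The canonical divisor of the smooth projective varieties of dimension `n` over `k` with the
function field `K` is pseudo-effective. -/
def IsPseudoEffective (k K : Type) [Field k] [Field K] [Algebra k K] (n : ℕ) : Prop :=
  Psef k K n (fun _ => False)

/-- **Viehweg's inequality for images of fibrations by curves.** Let `V` be a component of the zero
set of a Laurent polynomial `f` in the variables `t l`, `x`, `y`, with function field
`K` and generic point `z`, along which the hypersurface `f = 0` is mild, and let the exponents of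
`x`, `y` be in a trapezoid. Suppose that the `t l`
and `x` are algebraically independent on `V`, that the generic fibres of the map `V ⇢ V'` given by the
`t l` are irreducible, and that for all lattice points `(i, j)` in the interior of the trapezoid there
is a vector `u i j` over it such that `u i j` and the `u i j + M e l` are in the Fine interior. Let
`V ⇢ W` be a dominant rational map of finite degree, `L` the function field of `W`, and `m` the degree
over `W` of the image of `V` in `W × V'`. Let `W ⇢ Y` be a dominant rational map, given by the
subfield `E` of `L`, with `κ(Y) ≥ 0`, `d = dim Y`, and `F` its generic fibre, a variety of dimension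
`f'` over `E` with the function field `L`. Suppose that `2 m ≤ M + 1`.
If `K_F` is pseudo-effective then `κ(W) ≥ n = dim W - 1`. So `κ(W) ≥ κ(F) + dim Y`, or `F` is of
general type. -/
theorem result {n a s b M : ℕ} (hM : 1 ≤ M) {f : (Fin (n + 2) → ℤ) →₀ ℂ}
    (hT : InTrapezoid f a s b) {K : Type} [Field K] [Algebra ℂ K]
    {z : Fin (n + 2) → K} (hf : IsMild f z) (hz : ∀ i, z i ≠ 0) (hfz : ev z f = 0)
    (hgen : IntermediateField.adjoin ℂ (Set.range z) = ⊤) (hK : Algebra.trdeg ℂ K = (n + 1 : ℕ))
    (hind : AlgebraicIndependent ℂ fun i : Fin (n + 1) => z i.castSucc)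
    {t : Fin n → K} (ht : ∀ l, t l = z l.castSucc.castSucc)
    (hcl : ∀ g : K, IsAlgebraic (IntermediateField.adjoin ℂ (Set.range t)) g →
      g ∈ IntermediateField.adjoin ℂ (Set.range t))
    {u : ℕ → ℕ → Fin (n + 2) → ℤ}
    (hu : ∀ i j, Interior a s b i j → u i j (Fin.last n).castSucc = i ∧
      u i j (Fin.last (n + 1)) = j ∧ InFine f (u i j) ∧
      ∀ l : Fin n, InFine f (u i j + (M : ℤ) • Pi.single l.castSucc.castSucc 1))
    (L : Type) [Field L] [Algebra ℂ L] [Algebra L K] [IsScalarTower ℂ L K]
    [FiniteDimensional L K] (E : IntermediateField ℂ L) [Algebra.EssFiniteType ℂ E] {d f' : ℕ}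
    (hd : Algebra.trdeg ℂ E = d) (hf' : Algebra.trdeg E L = f') (hY : KappaGe ℂ E d 0)
    (hm : 2 * Module.finrank L (IntermediateField.adjoin L (Set.range t)) ≤ M + 1) :
    (IsPseudoEffective E L f' → KappaGe ℂ L (n + 1) n) ∧
      ∀ q : ℕ, KappaGe E L f' q → KappaGe ℂ L (n + 1) (q + d) ∨ q = f' := by
  classical
  have hess : Algebra.EssFiniteType ℂ K := by
    rw [← IntermediateField.fg_top_iff, ← hgen]
    exact ⟨Finset.univ.image z, by rw [Finset.coe_image, Finset.coe_univ, Set.image_univ]⟩
  have hL : Algebra.trdeg ℂ L = (n + 1 : ℕ) := Pool.Agent.Y184.NT.trdeg_below (K := K) hK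
  have hessL : Algebra.EssFiniteType ℂ L := Pool.Agent.TH466.QG.ess_below (K := K)
  obtain ⟨-, h2⟩ := Pool.Agent.K9h25.M.Cur.result hM hT hf hz hfz hgen
    hK hind ht hcl hu L
  have hdf : d + f' = n + 1 := by
    have h3 := trdeg_add_eq ℂ E (A := L)
    rw [hd, hf', hL] at h3
    exact_mod_cast h3
  have hkey : IsPseudoEffective E L f' → ¬ Pool.Agent.W619.PQ.IsUniruled ℂ L (n + 1) :=
    fun h4 h5 => Pool.Agent.R882.UA.fib_not hL h5 E hd hf' hY h4
  refine ⟨fun h4 => (h2 hm).resolve_left (hkey h4), fun q h4 => ?_⟩
  · have h4' := psef_of_kodGe (Pool.Agent.R882.UA.kod_mono h4 (Nat.zero_le _))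
    have h5 := (h2 hm).resolve_left (hkey h4')
    have hq : q ≤ f' := Pool.Agent.R882.UA.kod_le_dim hf' h4
    by_cases hpq : q = f'
    · exact Or.inr hpq
    · left
      exact Pool.Agent.R882.UA.kod_mono h5 (by omega)

end Pool.Agent.Results.MP_5c318e_ag.MildCurveFibrations
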